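import Mathlib
import Pool.Agent.Lib.MP_17c3bf_an.Core

set_option autoImplicit false

open Filter Topology

namespace Pool.Agent.Results.MP_17c3bf_an.SigmaCompactRemotal

/-- `K` is uniquely remotal: every point of the space has exactly one farthest point in `K`. -/
def UniquelyRemotal {X : Type*} [NormedAddCommGroup X] (K : Set X) : Prop :=
  ∀ x : X, ∃! y : X, y ∈ K ∧ ∀ z ∈ K, dist x z ≤ dist x y

/-- A family of closed balls (a set of pairs consisting of a centre and a radius) whose members
have a common point as soon as, for each `ε > 0`, the balls with radii enlarged by `ε` have one. -/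
def BallProperty (X : Type*) [NormedAddCommGroup X] : Prop :=
  ∀ B : Set (X × ℝ), (∀ ε : ℝ, 0 < ε → ∃ z : X, ∀ b ∈ B, dist z b.1 ≤ b.2 + ε) →
    ∃ z : X, ∀ b ∈ B, dist z b.1 ≤ b.2

/-- A sequence of points that lie asymptotically between two points `x` and `y`, at asymptotic
distance `s` strictly between `0` and `dist x y` from `x`, has a convergent subsequence. -/
def AlmostSegmentsCompact (X : Type*) [NormedAddCommGroup X] : Prop :=
  ∀ (x y : X) (s : ℝ) (z : ℕ → X), 0 < s → s < dist x y →
    Tendsto (fun k => dist x (z k)) atTop (𝓝 s) →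
    Tendsto (fun k => dist (z k) y) atTop (𝓝 (dist x y - s)) →
    ∃ (w : X) (φ : ℕ → ℕ), StrictMono φ ∧ Tendsto (fun k => z (φ k)) atTop (𝓝 w)

/-- The norm is locally uniformly rotund. -/
def LocallyUniformlyRotund (X : Type*) [NormedAddCommGroup X] : Prop :=
  ∀ (x : X) (u : ℕ → X), ‖x‖ = 1 → Tendsto (fun k => ‖u k‖) atTop (𝓝 1) →
    Tendsto (fun k => ‖x + u k‖) atTop (𝓝 2) → Tendsto u atTop (𝓝 x)

theorem desc_of_ball {X : Type*} [NormedAddCommGroup X] [NormedSpace ℝ X]
    (hX : BallProperty X) {K : Set X} {q : X → X}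
    (F : Pool.Agent.Lib.MP_17c3bf_an.Far K q) (p : X) (s : ℝ) (z : ℕ → X) (hs : 0 < s)
    (h1 : Tendsto (fun k => dist p (z k)) atTop (𝓝 s))
    (h2 : Tendsto (fun k => dist (z k) (q (z k))) atTop (𝓝 (dist p (q p) - s))) :
    ∃ z', dist p z' ≠ 0 ∧ dist z' (q z') + dist p z' ≤ dist p (q p) := by
  obtain ⟨w, hw⟩ := hX (insert (p, s) ((fun a => (a, dist p (q p) - s)) '' K)) (by
    intro ε hε
    have e1 := h1.eventually (gt_mem_nhds (show s < s + ε by linarith))
    have e2 := h2.eventually (gt_mem_nhds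
      (show dist p (q p) - s < dist p (q p) - s + ε by linarith))
    obtain ⟨k, hk1, hk2⟩ := (e1.and e2).exists
    refine ⟨z k, ?_⟩
    intro b hb
    rcases Set.mem_insert_iff.1 hb with rfl | ⟨a, ha, rfl⟩
    · simp only
      rw [dist_comm]; exact hk1.le
    · exact (F.far (z k) a ha).trans hk2.le)
  have hwp : dist w p ≤ s := hw (p, s) (Set.mem_insert _ _)
  have hwK : dist w (q w) ≤ dist p (q p) - s :=
    hw (q w, dist p (q p) - s) (Set.mem_insert_of_mem _ ⟨q w, F.mem w, rfl⟩)
  refine ⟨w, ?_, ?_⟩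
  · intro h
    have : p = w := dist_eq_zero.1 h
    subst this
    linarith
  · rw [dist_comm p w]; linarith

theorem desc_of_segments {X : Type*} [NormedAddCommGroup X] [NormedSpace ℝ X]
    (hX : AlmostSegmentsCompact X) {K : Set X} {q : X → X}
    (F : Pool.Agent.Lib.MP_17c3bf_an.Far K q) (p : X) (s : ℝ) (z : ℕ → X) (hs : 0 < s)
    (h1 : Tendsto (fun k => dist p (z k)) atTop (𝓝 s))
    (h2 : Tendsto (fun k => dist (z k) (q (z k))) atTop (𝓝 (dist p (q p) - s))) :
    ∃ z', dist p z' ≠ 0 ∧ dist z' (q z') + dist p z' ≤ dist p (q p) := by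
  have h3 : Tendsto (fun k => dist (z k) (q p)) atTop (𝓝 (dist p (q p) - s)) := by
    refine tendsto_of_tendsto_of_tendsto_of_le_of_le (h1.const_sub (dist p (q p))) h2
      (fun k => ?_) (fun k => F.far (z k) (q p) (F.mem p))
    have := dist_triangle p (z k) (q p)
    simp only
    linarith
  obtain ⟨w, φ, hφ, hw⟩ : ∃ (w : X) (φ : ℕ → ℕ), StrictMono φ ∧
      Tendsto (fun k => z (φ k)) atTop (𝓝 w) := by
    rcases lt_or_ge s (dist p (q p)) with hlt | hge
    · exact hX p (q p) s z hs hlt h1 h3
    · have h4 : dist p (q p) - s = 0 := by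
        refine le_antisymm (by linarith) (ge_of_tendsto' h2 fun k => dist_nonneg)
      rw [h4] at h3
      exact ⟨q p, id, strictMono_id, tendsto_iff_dist_tendsto_zero.2 h3⟩
  have h5 := h1.comp hφ.tendsto_atTop
  have h6 := h2.comp hφ.tendsto_atTop
  have h7 : dist p w = s := tendsto_nhds_unique (tendsto_const_nhds.dist hw) h5
  have h8 : dist w (q w) = dist p (q p) - s :=
    tendsto_nhds_unique ((F.continuous.tendsto w).comp hw) h6
  refine ⟨w, by rw [h7]; exact hs.ne', by rw [h7, h8]; linarith⟩

theorem segments_of_lur {X : Type*} [NormedAddCommGroup X] [NormedSpace ℝ X]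
    (hX : LocallyUniformlyRotund X) : AlmostSegmentsCompact X := by
  intro x y s z hs hsR h1 h2
  set R := dist x y with hR
  have hR0 : 0 < R := hs.trans hsR
  have hRn : ‖x - y‖ = R := by rw [hR, dist_eq_norm]
  have hlur := hX ((1 / R) • (x - y)) (fun k => (1 / s) • (x - z k)) ?_ ?_ ?_
  · refine ⟨x - s • ((1 / R) • (x - y)), id, strictMono_id, ?_⟩
    have h3 := (hlur.const_smul s).const_sub x
    refine h3.congr fun k => ?_
    rw [smul_smul, mul_one_div_cancel hs.ne', one_smul]
    simp
  · rw [norm_smul, hRn, Real.norm_of_nonneg (by positivity)]; field_simp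
  · have h3 : Tendsto (fun k => (1 / s) * dist x (z k)) atTop (𝓝 ((1 / s) * s)) :=
      h1.const_mul _
    have h4 : (1 / s) * s = 1 := by field_simp
    rw [h4] at h3
    refine h3.congr fun k => ?_
    rw [norm_smul, Real.norm_of_nonneg (by positivity), dist_eq_norm]
  · have hup : Tendsto (fun k => 1 + (1 / s) * dist x (z k)) atTop (𝓝 2) := by
      have h3 : Tendsto (fun k => 1 + (1 / s) * dist x (z k)) atTop (𝓝 (1 + (1 / s) * s)) :=
        (h1.const_mul _).const_add 1
      have h4 : 1 + (1 / s) * s = 2 := by field_simp; norm_num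
      rwa [h4] at h3
    have hlo : Tendsto (fun k => (1 / s) * (R + s - dist (z k) y)) atTop (𝓝 2) := by
      have h3 : Tendsto (fun k => (1 / s) * (R + s - dist (z k) y)) atTop
          (𝓝 ((1 / s) * (R + s - (R - s)))) := (h2.const_sub (R + s)).const_mul (1 / s)
      have h4 : (1 / s) * (R + s - (R - s)) = 2 := by field_simp; ring
      rwa [h4] at h3
    refine tendsto_of_tendsto_of_tendsto_of_le_of_le hlo hup (fun k => ?_) (fun k => ?_)
    · simp only
      have h5 : s • ((1 / R) • (x - y) + (1 / s) • (x - z k)) =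
          ((R + s) / R) • (x - y) - (z k - y) := by
        have e1 : s * (1 / s) = 1 := by field_simp
        have e2 : (R + s) / R = 1 + s * (1 / R) := by field_simp
        rw [smul_add, smul_smul, smul_smul, e1, e2]
        module
      have h6 : ‖((R + s) / R) • (x - y)‖ = R + s := by
        rw [norm_smul, hRn, Real.norm_of_nonneg (by positivity)]; field_simp
      have h7 := norm_sub_norm_le (((R + s) / R) • (x - y)) (z k - y)
      rw [← h5, h6, norm_smul, Real.norm_of_nonneg hs.le, ← dist_eq_norm] at h7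
      have h8 := mul_le_mul_of_nonneg_left h7 (by positivity : (0:ℝ) ≤ 1 / s)
      have h9 : 1 / s * (s * ‖(1 / R) • (x - y) + (1 / s) • (x - z k)‖) =
          ‖(1 / R) • (x - y) + (1 / s) • (x - z k)‖ := by
        rw [← mul_assoc, one_div_mul_cancel hs.ne', one_mul]
      linarith
    · refine (norm_add_le _ _).trans ?_
      rw [norm_smul, norm_smul, hRn, Real.norm_of_nonneg (by positivity),
        Real.norm_of_nonneg (by positivity), ← dist_eq_norm]
      have : 1 / R * R = 1 := by field_simp
      rw [this]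

theorem ball_dual {Y : Type*} [NormedAddCommGroup Y] [NormedSpace ℝ Y] :
    BallProperty (StrongDual ℝ Y) := by
  intro B hB
  rcases B.eq_empty_or_nonempty with rfl | ⟨b0, hb0⟩
  · exact ⟨0, by simp⟩
  let t : ℕ → Set (WeakDual ℝ Y) := fun n =>
    ⋂ b ∈ B, WeakDual.toStrongDual ⁻¹' Metric.closedBall b.1 (b.2 + 1 / ((n:ℝ) + 1))
  have hcl : ∀ n, IsClosed (t n) := fun n =>
    isClosed_biInter fun b _ => WeakDual.isClosed_closedBall _ _
  have hmono : ∀ n, t (n+1) ⊆ t n := by
    intro n z hz
    simp only [t, Set.mem_iInter, Set.mem_preimage, Metric.mem_closedBall] at hz ⊢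
    intro b hb
    refine (hz b hb).trans ?_
    have : (1:ℝ) / (((n+1:ℕ):ℝ) + 1) ≤ 1 / ((n:ℝ) + 1) := by
      apply one_div_le_one_div_of_le (by positivity)
      push_cast; linarith
    linarith
  have hne : ∀ n, (t n).Nonempty := by
    intro n
    obtain ⟨z, hz⟩ := hB (1 / ((n:ℝ) + 1)) (by positivity)
    refine ⟨WeakDual.toStrongDual.symm z, ?_⟩
    simp only [t, Set.mem_iInter, Set.mem_preimage, Metric.mem_closedBall]
    intro b hb
    simpa using hz b hb
  have hc0 : IsCompact (t 0) := by
    refine (WeakDual.isCompact_closedBall b0.1 (b0.2 + 1 / (((0:ℕ):ℝ) + 1))).of_isClosed_subset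
      (hcl 0) ?_
    exact Set.biInter_subset_of_mem hb0
  obtain ⟨z, hz⟩ := IsCompact.nonempty_iInter_of_sequence_nonempty_isCompact_isClosed t hmono hne
    hc0 hcl
  refine ⟨WeakDual.toStrongDual z, fun b hb => ?_⟩
  have h1 : ∀ n : ℕ, dist (WeakDual.toStrongDual z) b.1 ≤ b.2 + 1 / ((n:ℝ) + 1) := by
    intro n
    have := Set.mem_iInter.1 hz n
    simp only [t, Set.mem_iInter, Set.mem_preimage, Metric.mem_closedBall] at this
    exact this b hb
  have h2 : Tendsto (fun n : ℕ => b.2 + 1 / ((n:ℝ) + 1)) atTop (𝓝 (b.2 + 0)) :=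
    tendsto_one_div_add_atTop_nhds_zero_nat.const_add _
  have := ge_of_tendsto' h2 h1
  simpa using this

theorem ball_retract {X Z : Type*} [NormedAddCommGroup X] [NormedAddCommGroup Z]
    (hZ : BallProperty Z) (J : X → Z) (P : Z → X) (hJ : Isometry J) (hP : LipschitzWith 1 P)
    (hPJ : ∀ x, P (J x) = x) : BallProperty X := by
  intro B hB
  obtain ⟨z, hz⟩ := hZ ((fun b : X × ℝ => (J b.1, b.2)) '' B) (by
    intro ε hε
    obtain ⟨z, hz⟩ := hB ε hε
    refine ⟨J z, ?_⟩
    rintro _ ⟨b, hb, rfl⟩
    simpa [hJ.dist_eq] using hz b hb)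
  refine ⟨P z, fun b hb => ?_⟩
  have h1 := hz _ ⟨b, hb, rfl⟩
  have h2 := hP.dist_le_mul z (J b.1)
  rw [hPJ] at h2
  simp only [NNReal.coe_one, one_mul] at h2
  exact h2.trans h1

/-- `X` is a nonexpansive retract of the dual of a normed space (for example a dual space). -/
def RetractOfDual (X : Type) [NormedAddCommGroup X] : Prop :=
  ∃ (Y : Type) (_ : NormedAddCommGroup Y) (_ : NormedSpace ℝ Y) (J : X → StrongDual ℝ Y)
    (P : StrongDual ℝ Y → X), Isometry J ∧ LipschitzWith 1 P ∧ ∀ x, P (J x) = x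

/-- Let the real Banach space `X` be a nonexpansive retract of a dual space, or have the ball
property, or be locally uniformly rotund, or have compact almost segments. Then every uniquely
remotal subset of `X` that is a countable union of compact sets is a single point. -/
theorem result (X : Type) [NormedAddCommGroup X] [NormedSpace ℝ X] [CompleteSpace X]
    (hX : RetractOfDual X ∨ BallProperty X ∨ LocallyUniformlyRotund X ∨ AlmostSegmentsCompact X)
    (K : Set X) (hK : IsSigmaCompact K) (hu : UniquelyRemotal K) : ∃ a : X, K = {a} := by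
  have hX' : BallProperty X ∨ AlmostSegmentsCompact X := by
    rcases hX with ⟨Y, _, _, J, P, hJ, hP, hPJ⟩ | hX | hX | hX
    · exact Or.inl (ball_retract ball_dual J P hJ hP hPJ)
    · exact Or.inl hX
    · exact Or.inr (segments_of_lur hX)
    · exact Or.inr hX
  obtain ⟨q, F⟩ := Pool.Agent.Lib.MP_17c3bf_an.exists_far hu
  refine F.main hK fun p s z hs h1 h2 => ?_
  rcases hX' with hX | hX
  · exact desc_of_ball hX F p s z hs h1 h2
  · exact desc_of_segments hX F p s z hs h1 h2

end Pool.Agent.Results.MP_17c3bf_an.SigmaCompactRemotal
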